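import Mathlib
import Pool.Agent.Q79.SpiralB

open Set MeasureTheory

namespace Pool.Agent.Results.MP_a3803f_an.RaisesToFullDimension

/-- `X` (a subset of a metric space, with the restricted metric) has Nagata dimension at most `d`:
there is `c > 0` such that for every `s > 0` the set `X` has a cover by sets of diameter at most
`c s` in which every subset of `X` of diameter at most `s` meets at most `d + 1` members. -/
def NagataLE {M : Type*} [MetricSpace M] (X : Set M) (d : ℕ) : Prop :=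
  ∃ c : ℝ, 0 < c ∧ ∀ s : ℝ, 0 < s → ∃ 𝒞 : Set (Set M), ⋃₀ 𝒞 = X ∧
    (∀ C ∈ 𝒞, ∀ x ∈ C, ∀ y ∈ C, dist x y ≤ c * s) ∧
    ∀ A ⊆ X, (∀ x ∈ A, ∀ y ∈ A, dist x y ≤ s) → {C ∈ 𝒞 | (C ∩ A).Nonempty}.encard ≤ d + 1

/-- The Nagata dimension, an element of `ℕ ∪ {∞}`. -/
noncomputable def nagataDim {M : Type*} [MetricSpace M] (X : Set M) : ℕ∞ :=
  ⨅ (d : ℕ) (_ : NagataLE X d), (d : ℕ∞)

/-- `g` is a weak derivative of `f` in the open set `D`: integration by parts against every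
smooth test function with compact support in `D`, in every direction `v`. -/
def IsWeakDerivative {n : ℕ} (D : Set (EuclideanSpace ℝ (Fin n)))
    (f : EuclideanSpace ℝ (Fin n) → EuclideanSpace ℝ (Fin n))
    (g : EuclideanSpace ℝ (Fin n) → EuclideanSpace ℝ (Fin n) →L[ℝ] EuclideanSpace ℝ (Fin n)) :
    Prop :=
  ∀ φ : EuclideanSpace ℝ (Fin n) → ℝ, ContDiff ℝ (⊤ : ℕ∞) φ → HasCompactSupport φ →
    tsupport φ ⊆ D → ∀ v : EuclideanSpace ℝ (Fin n),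
      ∫ x in D, (fderiv ℝ φ x v) • f x = - ∫ x in D, φ x • g x v

/-- `f : D → ℝⁿ` is in `W^{1,n}_loc(D)` (the map and its weak derivative `g` are in `Lⁿ` on every
compact subset of `D`), and `|g(x)|ⁿ ≤ K det g(x)` for almost every `x` in `D`, for some
`K ≥ 1`. -/
def HasBoundedDistortion {n : ℕ} (D : Set (EuclideanSpace ℝ (Fin n)))
    (f : EuclideanSpace ℝ (Fin n) → EuclideanSpace ℝ (Fin n)) : Prop :=
  ContinuousOn f D ∧
  ∃ g : EuclideanSpace ℝ (Fin n) → EuclideanSpace ℝ (Fin n) →L[ℝ] EuclideanSpace ℝ (Fin n),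
    (∀ C : Set (EuclideanSpace ℝ (Fin n)), IsCompact C → C ⊆ D →
      MemLp f n (volume.restrict C) ∧ MemLp g n (volume.restrict C)) ∧
    IsWeakDerivative D f g ∧
    ∃ K : ℝ, 1 ≤ K ∧ ∀ᵐ x ∂(volume.restrict D), ‖g x‖ ^ n ≤ K * (g x).det

/-- A domain: a nonempty connected open set. -/
def IsDom {n : ℕ} (Ω : Set (EuclideanSpace ℝ (Fin n))) : Prop := IsOpen Ω ∧ IsConnected Ω

/-- `f : Ω → Ω'` is a quasiconformal map (analytic definition): a homeomorphism of `Ω` onto `Ω'`,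
in `W^{1,n}_loc(Ω)`, with `|Df|ⁿ ≤ K J_f` almost everywhere. -/
def IsQuasiconformal {n : ℕ} (Ω Ω' : Set (EuclideanSpace ℝ (Fin n)))
    (f : EuclideanSpace ℝ (Fin n) → EuclideanSpace ℝ (Fin n)) : Prop :=
  (∃ e : Ω ≃ₜ Ω', ∀ x : Ω, (e x : EuclideanSpace ℝ (Fin n)) = f x) ∧ HasBoundedDistortion Ω f

lemma hyperplane {n k : ℕ} (h : n = k + 1) (X : Set (EuclideanSpace ℝ (Fin n))) (i₀ : Fin n)
    (hX : ∀ x ∈ X, x i₀ = 0) : Q79.Nagata.NagataLE X k := by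
  subst h
  exact Q79.Nagata.nagataLE_hyperplane X i₀ hX

/-- **Q1 has the answer yes for every `n ≥ 3`.** There are domains `Ω, Ω'` in `ℝⁿ`, a
quasiconformal map `f : Ω → Ω'` and a set `A ⊆ Ω` with `dim_N A ≤ n - 1` and `dim_N f(A) = n`.
Moreover `Ω` is convex, `A` is the intersection of `Ω` with a hyperplane, and `f` is a `C¹`
diffeomorphism with `|Df(x)| ≤ 3/2` and `J_f(x) ≥ 9/10` at every `x ∈ Ω`. -/
theorem result (n : ℕ) (hn : 3 ≤ n) :
    ∃ Ω Ω' : Set (EuclideanSpace ℝ (Fin n)), IsDom Ω ∧ IsDom Ω' ∧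
      ∃ f : EuclideanSpace ℝ (Fin n) → EuclideanSpace ℝ (Fin n), IsQuasiconformal Ω Ω' f ∧
        (∃ A ⊆ Ω, (nagataDim A ≤ (n - 1 : ℕ) ∧ nagataDim (f '' A) = n) ∧
          ∃ i : Fin n, A = {x ∈ Ω | x i = 0}) ∧
        Convex ℝ Ω ∧ ContDiffOn ℝ 1 f Ω ∧
        ∀ x ∈ Ω, ‖fderiv ℝ f x‖ ≤ 3 / 2 ∧ 9 / 10 ≤ (fderiv ℝ f x).det := by
  obtain ⟨m, rfl⟩ := Nat.exists_eq_add_of_le (show 2 ≤ n by omega)
  have hne : (Q79.Spiral.Om m).Nonempty := by
    refine ⟨WithLp.toLp 2 (fun i => Fin.addCases (motive := fun _ => ℝ)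
      (fun j : Fin 2 => ![51, 0] j) (fun _ : Fin m => 0) i), ?_, ?_, ?_⟩
    · simp [Q79.Spiral.i0]; norm_num
    · simp [Q79.Spiral.i1]
    · simp [Q79.Spiral.i1]
  have hconn : IsConnected (Q79.Spiral.Om m) :=
    ⟨hne, Q79.Spiral.convex_Om.isPreconnected⟩
  refine ⟨Q79.Spiral.Om m, Q79.Spiral.F '' Q79.Spiral.Om m, ⟨Q79.Spiral.isOpen_Om, hconn⟩,
    ⟨Q79.Spiral.isOpen_image Q79.Spiral.isOpen_Om subset_rfl,
      hconn.image _ Q79.Spiral.contDiffOn_F.continuousOn⟩, Q79.Spiral.F,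
    ⟨⟨Q79.Spiral.homeo m, fun x => rfl⟩, Q79.Spiral.quasiregular_F⟩,
    ⟨Q79.Spiral.E0 m, fun x hx => hx.1, ⟨?_, ?_⟩, ⟨Q79.Spiral.i1 m, rfl⟩⟩,
    Q79.Spiral.convex_Om, Q79.Spiral.contDiffOn_F, ?_⟩
  · refine iInf₂_le_of_le (1 + m) ?_ ?_
    · exact hyperplane (by omega) _ (Q79.Spiral.i1 m) (fun x hx => hx.2)
    · have : 2 + m - 1 = 1 + m := by omega
      rw [this]
  · apply le_antisymm
    · exact iInf₂_le_of_le (2 + m) (Q79.Nagata.nagataLE_euclid _) le_rfl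
    · refine le_iInf₂ (fun d hd => ?_)
      by_contra hcon
      push Not at hcon
      have hlt : d < 2 + m := by exact_mod_cast hcon
      have hd' : Q79.Nagata.NagataLE (Q79.Spiral.F '' Q79.Spiral.E0 m) d := hd
      exact Q79.Spiral.not_nagataLE (hd'.mono (by omega))
  · intro x hx
    rw [(Q79.Spiral.hasStrictFDerivAt_F hx).hasFDerivAt.fderiv]
    exact ⟨Q79.Spiral.DF_norm_le hx, Q79.Spiral.DF_det_ge hx⟩

end Pool.Agent.Results.MP_a3803f_an.RaisesToFullDimension
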